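import Mathlib
import Pool.Agent.Q182.SemilatticeDefs
import Pool.Agent.Q182.AHExample3

/-!
# An s-complete regular topological semilattice that is not absolutely H-closed
-/

namespace Pool.Agent.Results.MP_3bb15c_gt.NotAbsHClosed

open Q182

/-- There are an `s`-complete regular Hausdorff topological semilattice `X`, a Hausdorff
topological semigroup `Y` (even a topological semilattice: commutative and idempotent) and an
injective continuous homomorphism `h : X → Y` whose image is not closed in `Y`. -/
theorem result :
    ∃ (X : Type) (_ : SemilatticeInf X) (_ : TopologicalSpace X),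
      ContinuousInf X ∧ T2Space X ∧ RegularSpace X ∧ IsSComplete X ∧
        ∃ (Y : Type) (_ : CommSemigroup Y) (_ : TopologicalSpace Y),
          (∀ y : Y, y * y = y) ∧ ContinuousMul Y ∧ T2Space Y ∧
            ∃ h : X → Y, Continuous h ∧ Function.Injective h ∧
              (∀ u v, h (u ⊓ v) = h u * h v) ∧ ¬ IsClosed (Set.range h) := by
  let cs : CommSemigroup AH.Y :=
    { mul := fun a b => a ⊓ b
      mul_assoc := fun a b c => inf_assoc a b c
      mul_comm := fun a b => inf_comm a b }
  refine ⟨AH.X, inferInstance, inferInstance, inferInstance, inferInstance, inferInstance,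
    AH.sComplete, AH.Y, cs, inferInstance, fun y => inf_idem y, ?_,
    inferInstance, AH.X.y, AH.continuous_y, AH.X.y_injective, fun u v => AH.X.y_inf u v,
    AH.not_isClosed_range⟩
  exact ⟨continuous_inf (L := AH.Y)⟩

end Pool.Agent.Results.MP_3bb15c_gt.NotAbsHClosed
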